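import Pool.Agent.Helper3.Nim.Regular
import Pool.Agent.Helper3.Nim.Exists

set_option autoImplicit false

namespace Pool.Agent.Results.MP_68925f_co.NotRegular

/-- Rules (a), (b), (c) of the problem file, which define the nim product: `mul` is commutative,
associative, distributes over the bitwise exclusive or `^^^`, and satisfies
`m ⊗ n = m n` for `m = 2^(2^a)`, `n < m`, and `m ⊗ m = 3 m / 2` for `m = 2^(2^a)`. -/
structure IsNimProduct (mul : ℕ → ℕ → ℕ) : Prop where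
  ruleA : ∀ a n : ℕ, n < 2 ^ (2 ^ a) → mul (2 ^ (2 ^ a)) n = 2 ^ (2 ^ a) * n
  ruleB : ∀ a : ℕ, mul (2 ^ (2 ^ a)) (2 ^ (2 ^ a)) = 3 * 2 ^ (2 ^ a) / 2
  comm : ∀ x y : ℕ, mul x y = mul y x
  assoc : ∀ x y z : ℕ, mul (mul x y) z = mul x (mul y z)
  distrib : ∀ x y z : ℕ, mul x (y ^^^ z) = mul x y ^^^ mul x z

/-- An integer sequence is 2-regular if its 2-kernel generates a finitely generated
`ℤ`-submodule of `ℤ^ℕ`. -/
def IsTwoRegular (s : ℕ → ℤ) : Prop :=
  (Submodule.span ℤ {f : ℕ → ℤ | ∃ e r : ℕ, r < 2 ^ e ∧ f = fun n => s (2 ^ e * n + r)}).FG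

/-- A two-dimensional integer array is 2-regular if its 2-kernel generates a finitely generated
`ℤ`-submodule of `ℤ^(ℕ×ℕ)`. -/
def IsTwoRegularArray (t : ℕ → ℕ → ℤ) : Prop :=
  (Submodule.span ℤ {f : ℕ → ℕ → ℤ | ∃ e r r' : ℕ, r < 2 ^ e ∧ r' < 2 ^ e ∧
    f = fun m n => t (2 ^ e * m + r) (2 ^ e * n + r')}).FG

/-- An operation satisfying the rules exists (the nim product), and for every operation satisfying
the rules neither the sequence of squares `n ⊗ n` nor the array `m ⊗ n` is 2-regular. -/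
theorem result :
    (∃ mul : ℕ → ℕ → ℕ, IsNimProduct mul) ∧
    ∀ mul : ℕ → ℕ → ℕ, IsNimProduct mul →
      (¬ IsTwoRegular fun n => (mul n n : ℤ)) ∧
      ¬ IsTwoRegularArray fun m n => (mul m n : ℤ) := by
  refine ⟨⟨Helper3.Nim.nim, ?_⟩, fun mul H => ?_⟩
  · have H := Helper3.Nim.isNimMul_nim
    exact ⟨H.small, H.sq, H.comm, H.assoc, H.distrib⟩
  · have H' : Helper3.Nim.IsNimMul mul := ⟨H.ruleA, H.ruleB, H.comm, H.assoc, H.distrib⟩
    exact ⟨Helper3.Nim.not_regular H', Helper3.Nim.not_regular_array H'⟩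

end Pool.Agent.Results.MP_68925f_co.NotRegular
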